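import Pool.Agent.Q265.Fru.Mis

/-!
# MP_31abb5_co: the second-order term of the largest missing number of frustrated triangles

A graph on `n` vertices is given by its edge set `E`, a set of 2-element subsets of `Fin n`.
-/

set_option autoImplicit false
open Finset Filter

namespace Pool.Agent.Results.MP_31abb5_co.SecondOrder

/-- `E` is the edge set of a graph: every element is a set of two vertices. -/
def IsGraph {n : ℕ} (E : Finset (Finset (Fin n))) : Prop := ∀ e ∈ E, e.card = 2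

/-- The number of edges inside the vertex set `T`. -/
def edgesIn {n : ℕ} (E : Finset (Finset (Fin n))) (T : Finset (Fin n)) : ℕ :=
  (E.filter fun e => e ⊆ T).card

/-- The number `f(G)` of frustrated triangles: three vertices with an odd number of edges. -/
def frustrated {n : ℕ} (E : Finset (Finset (Fin n))) : ℕ :=
  (((univ : Finset (Fin n)).powersetCard 3).filter fun T => Odd (edgesIn E T)).card

/-- The set `F_n` of the numbers of frustrated triangles of the graphs with `n` vertices. -/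
def F (n : ℕ) : Set ℕ :=
  {m | ∃ E : Finset (Finset (Fin n)), IsGraph E ∧ frustrated E = m}

/-- The largest nonnegative integer `m < C(n,3) / 2` with `m ∉ F_n`. -/
noncomputable def largestMissing (n : ℕ) : ℕ := sSup {m | 2 * m < n.choose 3 ∧ m ∉ F n}

/-- The largest nonnegative even integer `m < C(n,3) / 2` with `m ∉ F_n`. -/
noncomputable def largestMissingEven (n : ℕ) : ℕ :=
  sSup {m | Even m ∧ 2 * m < n.choose 3 ∧ m ∉ F n}

/-- The remainder for even `n` (even numbers only, since all members of `F_n` are even). -/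
noncomputable def R0 (n : ℕ) : ℝ := largestMissingEven n - (n : ℝ) ^ (3 / 2 : ℝ)

/-- The remainder for odd `n`. -/
noncomputable def R1 (n : ℕ) : ℝ := largestMissing n - √2 * (n : ℝ) ^ (3 / 2 : ℝ)

theorem not_F {n m : ℕ} : m ∉ F n ↔
    ¬ ∃ E : Finset (Finset (Fin n)), Pool.Agent.Q265.Fru.IsG E ∧ Pool.Agent.Q265.Fru.fr E = m :=
  Iff.rfl

theorem even_F {n : ℕ} (hn : Even n) {m : ℕ} (hm : m ∈ F n) : Even m := by
  obtain ⟨E, hE, rfl⟩ := hm
  have h := Pool.Agent.Q265.Fru.fr_add (E := E) hE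
  rw [Fintype.card_fin] at h
  change Even (Pool.Agent.Q265.Fru.fr E)
  rw [Nat.even_iff] at hn ⊢
  have hh : (n - 2) % 2 = 0 := by omega
  have p1 : (E.card * (n - 2)) % 2 = 0 := by
    rw [Nat.mul_mod, hh]; simp
  omega

theorem even_bound {n : ℕ} (hn : 100000000 ≤ n) (he : Even n) :
    |R0 n - √2 * (n : ℝ) ^ (5 / 4 : ℝ)| ≤ 10 * n := by
  have hnR : (100000000 : ℝ) ≤ n := by exact_mod_cast hn
  have hn0 : (0 : ℝ) < n := by linarith
  set x : ℝ := (n : ℝ) ^ (1 / 4 : ℝ) with hx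
  have hx4 : x ^ 4 = (1 : ℕ) * (n : ℝ) := by
    rw [hx, ← Real.rpow_natCast, ← Real.rpow_mul hn0.le]
    norm_num
  have hx0 : 0 ≤ x := Real.rpow_nonneg hn0.le _
  have hx100 : 100 ≤ x := by
    by_contra hc
    push Not at hc
    have : x ^ 4 < 100 ^ 4 := pow_lt_pow_left₀ hc hx0 (by norm_num)
    rw [hx4] at this
    norm_num at this
    linarith
  have e32 : x ^ 2 * n = (n : ℝ) ^ (3 / 2 : ℝ) := by
    rw [hx, ← Real.rpow_natCast, ← Real.rpow_mul hn0.le]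
    nth_rewrite 2 [← Real.rpow_one (n : ℝ)]
    rw [← Real.rpow_add hn0]
    norm_num
  have e54 : x * n = (n : ℝ) ^ (5 / 4 : ℝ) := by
    rw [hx]
    nth_rewrite 2 [← Real.rpow_one (n : ℝ)]
    rw [← Real.rpow_add hn0]
    norm_num
  have hn2 : n % 2 = 0 := Nat.even_iff.1 he
  obtain ⟨m0, a1, a2, a3, a4⟩ := Pool.Agent.Q265.Fru.lower (n := n) (k := 1) (Or.inl rfl)
    (by linarith) hx4
  have hbdd : BddAbove {m | Even m ∧ 2 * m < n.choose 3 ∧ m ∉ F n} :=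
    ⟨n.choose 3, fun m hm => by have := hm.2.1; omega⟩
  have hmem0 : m0 ∈ {m | Even m ∧ 2 * m < n.choose 3 ∧ m ∉ F n} :=
    ⟨Nat.even_iff.2 (a1 rfl hn2), a2, not_F.2 a3⟩
  have hle : m0 ≤ largestMissingEven n := le_csSup hbdd hmem0
  have hmem : largestMissingEven n ∈ {m | Even m ∧ 2 * m < n.choose 3 ∧ m ∉ F n} :=
    Nat.sSup_mem ⟨m0, hmem0⟩ hbdd
  have hup := Pool.Agent.Q265.Fru.upper (n := n) (k := 1) (Or.inl ⟨rfl, hn2⟩) hx100 hx4
    (m := largestMissingEven n) (fun _ => Nat.even_iff.1 hmem.1) hmem.2.1 (not_F.1 hmem.2.2)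
  have hle' : (m0 : ℝ) ≤ largestMissingEven n := by exact_mod_cast hle
  unfold R0
  rw [← e32, ← e54, abs_le]
  constructor
  · linarith
  · linarith

theorem odd_bound {n : ℕ} (hn : 100000000 ≤ n) (ho : Odd n) :
    |R1 n - 2 ^ (3 / 4 : ℝ) * (n : ℝ) ^ (5 / 4 : ℝ)| ≤ 10 * n := by
  have hnR : (100000000 : ℝ) ≤ n := by exact_mod_cast hn
  have hn0 : (0 : ℝ) < n := by linarith
  set y : ℝ := (n : ℝ) ^ (1 / 4 : ℝ) with hy
  set c : ℝ := (2 : ℝ) ^ (1 / 4 : ℝ) with hc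
  have hy0 : 0 ≤ y := Real.rpow_nonneg hn0.le _
  have hc0 : 0 ≤ c := Real.rpow_nonneg (by norm_num) _
  have hy4 : y ^ 4 = n := by
    rw [hy, ← Real.rpow_natCast, ← Real.rpow_mul hn0.le]
    norm_num
  have hc4 : c ^ 4 = 2 := by
    rw [hc, ← Real.rpow_natCast, ← Real.rpow_mul (by norm_num)]
    norm_num
  have hc2 : c ^ 2 = √2 := by
    rw [hc, ← Real.rpow_natCast, ← Real.rpow_mul (by norm_num), Real.sqrt_eq_rpow]
    norm_num
  have hc3 : √2 * c = (2 : ℝ) ^ (3 / 4 : ℝ) := by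
    rw [Real.sqrt_eq_rpow, hc, ← Real.rpow_add (by norm_num)]
    norm_num
  have hx4 : (c * y) ^ 4 = (2 : ℕ) * (n : ℝ) := by
    rw [mul_pow, hc4, hy4]
    norm_num
  have hx100 : 100 ≤ c * y := by
    by_contra hcon
    push Not at hcon
    have : (c * y) ^ 4 < 100 ^ 4 := pow_lt_pow_left₀ hcon (by positivity) (by norm_num)
    rw [hx4] at this
    norm_num at this
    linarith
  have e32 : y ^ 2 * n = (n : ℝ) ^ (3 / 2 : ℝ) := by
    rw [hy, ← Real.rpow_natCast, ← Real.rpow_mul hn0.le]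
    nth_rewrite 2 [← Real.rpow_one (n : ℝ)]
    rw [← Real.rpow_add hn0]
    norm_num
  have e54 : y * n = (n : ℝ) ^ (5 / 4 : ℝ) := by
    rw [hy]
    nth_rewrite 2 [← Real.rpow_one (n : ℝ)]
    rw [← Real.rpow_add hn0]
    norm_num
  have hn2 : n % 2 = 1 := Nat.odd_iff.1 ho
  obtain ⟨m0, a1, a2, a3, a4⟩ := Pool.Agent.Q265.Fru.lower (n := n) (k := 2)
    (Or.inr ⟨rfl, hn2⟩) (by linarith) hx4
  have hbdd : BddAbove {m | 2 * m < n.choose 3 ∧ m ∉ F n} :=
    ⟨n.choose 3, fun m hm => by have := hm.1; omega⟩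
  have hmem0 : m0 ∈ {m | 2 * m < n.choose 3 ∧ m ∉ F n} := ⟨a2, not_F.2 a3⟩
  have hle : m0 ≤ largestMissing n := le_csSup hbdd hmem0
  have hmem : largestMissing n ∈ {m | 2 * m < n.choose 3 ∧ m ∉ F n} :=
    Nat.sSup_mem ⟨m0, hmem0⟩ hbdd
  have hup := Pool.Agent.Q265.Fru.upper (n := n) (k := 2) (Or.inr ⟨rfl, hn2⟩) hx100 hx4
    (m := largestMissing n) (fun h => absurd h (by norm_num)) hmem.1 (not_F.1 hmem.2)
  have hle' : (m0 : ℝ) ≤ largestMissing n := by exact_mod_cast hle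
  rw [mul_pow, hc2] at a4 hup
  unfold R1
  rw [← e32, ← e54, ← hc3, abs_le]
  constructor
  · linarith
  · linarith

theorem literal_even {n : ℕ} (hn : 4 ≤ n) (he : Even n) :
    2 * largestMissing n < n.choose 3 ∧ n.choose 3 ≤ 2 * largestMissing n + 4 := by
  have hc : 4 ≤ n.choose 3 := by
    calc 4 = (4 : ℕ).choose 3 := by decide
      _ ≤ n.choose 3 := Nat.choose_le_choose 3 hn
  obtain ⟨m0, h1, h2, h3⟩ : ∃ m0, m0 % 2 = 1 ∧ 2 * m0 < n.choose 3 ∧ n.choose 3 ≤ 2 * m0 + 4 := by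
    rcases Nat.even_or_odd ((n.choose 3 - 1) / 2) with h | h
    · rw [Nat.even_iff] at h
      exact ⟨(n.choose 3 - 1) / 2 - 1, by omega, by omega, by omega⟩
    · rw [Nat.odd_iff] at h
      exact ⟨(n.choose 3 - 1) / 2, h, by omega, by omega⟩
  have hbdd : BddAbove {m | 2 * m < n.choose 3 ∧ m ∉ F n} :=
    ⟨n.choose 3, fun m hm => by have := hm.1; omega⟩
  have hmem0 : m0 ∈ {m | 2 * m < n.choose 3 ∧ m ∉ F n} :=
    ⟨h2, fun hF => by
      have := Nat.even_iff.1 (even_F he hF)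
      omega⟩
  have hle : m0 ≤ largestMissing n := le_csSup hbdd hmem0
  have hmem : largestMissing n ∈ {m | 2 * m < n.choose 3 ∧ m ∉ F n} :=
    Nat.sSup_mem ⟨m0, hmem0⟩ hbdd
  exact ⟨hmem.1, by omega⟩

theorem lim_of {R : ℕ → ℝ} {a : ℝ} (ha : 1 ≤ a) {S : Set ℕ}
    (h : ∀ n, 100000000 ≤ n → n ∈ S → |R n - a * (n : ℝ) ^ (5 / 4 : ℝ)| ≤ 10 * n) :
    Tendsto (fun n => R n / (a * (n : ℝ) ^ (5 / 4 : ℝ))) (atTop ⊓ 𝓟 S) (nhds 1) := by
  have h1 : Tendsto (fun n : ℕ => 10 * (n : ℝ) ^ (-(1 / 4) : ℝ)) (atTop ⊓ 𝓟 S) (nhds 0) := by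
    have : Tendsto (fun n : ℕ => (n : ℝ) ^ (-(1 / 4) : ℝ)) atTop (nhds 0) :=
      (tendsto_rpow_neg_atTop (by norm_num : (0 : ℝ) < 1 / 4)).comp tendsto_natCast_atTop_atTop
    have := (this.const_mul 10).mono_left (inf_le_left : atTop ⊓ 𝓟 S ≤ atTop)
    simpa using this
  rw [tendsto_iff_norm_sub_tendsto_zero]
  refine squeeze_zero' (Eventually.of_forall fun _ => norm_nonneg _) ?_ h1
  rw [eventually_inf_principal]
  filter_upwards [eventually_ge_atTop 100000000] with n hn hS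
  have hn0 : (0 : ℝ) < n := by
    have : (100000000 : ℝ) ≤ n := by exact_mod_cast hn
    linarith
  have hp : 0 < (n : ℝ) ^ (5 / 4 : ℝ) := Real.rpow_pos_of_pos hn0 _
  have hap : 0 < a * (n : ℝ) ^ (5 / 4 : ℝ) := by positivity
  have e : R n / (a * (n : ℝ) ^ (5 / 4 : ℝ)) - 1 =
      (R n - a * (n : ℝ) ^ (5 / 4 : ℝ)) / (a * (n : ℝ) ^ (5 / 4 : ℝ)) := by
    field_simp
  rw [Real.norm_eq_abs, e, abs_div, abs_of_pos hap, div_le_iff₀ hap]
  refine (h n hn hS).trans ?_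
  have e2 : 10 * (n : ℝ) ^ (-(1 / 4) : ℝ) * (a * (n : ℝ) ^ (5 / 4 : ℝ)) = 10 * a * n := by
    have : (n : ℝ) ^ (-(1 / 4) : ℝ) * (n : ℝ) ^ (5 / 4 : ℝ) = n := by
      rw [← Real.rpow_add hn0]
      norm_num
    calc 10 * (n : ℝ) ^ (-(1 / 4) : ℝ) * (a * (n : ℝ) ^ (5 / 4 : ℝ)) =
        10 * a * ((n : ℝ) ^ (-(1 / 4) : ℝ) * (n : ℝ) ^ (5 / 4 : ℝ)) := by ring
      _ = _ := by rw [this]
  rw [e2]
  nlinarith

/-- `R_0(n) = √2 n^(5/4) + O(n)` for even `n` and `R_1(n) = 2^(3/4) n^(5/4) + O(n)` for odd `n`; so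
`R_0(n) ~ √2 n^(5/4)` and `R_1(n) ~ 2^(3/4) n^(5/4)`. For even `n` all members of `F_n` are even, so
there the largest missing even number is meant; without this restriction the largest missing number
is within `2` of `C(n,3) / 2`. -/
theorem result :
    (∀ n, 100000000 ≤ n → Even n → |R0 n - √2 * (n : ℝ) ^ (5 / 4 : ℝ)| ≤ 10 * n) ∧
    (∀ n, 100000000 ≤ n → Odd n →
      |R1 n - 2 ^ (3 / 4 : ℝ) * (n : ℝ) ^ (5 / 4 : ℝ)| ≤ 10 * n) ∧
    Tendsto (fun n => R0 n / (√2 * (n : ℝ) ^ (5 / 4 : ℝ))) (atTop ⊓ 𝓟 {n | Even n}) (nhds 1) ∧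
    Tendsto (fun n => R1 n / (2 ^ (3 / 4 : ℝ) * (n : ℝ) ^ (5 / 4 : ℝ)))
      (atTop ⊓ 𝓟 {n | Odd n}) (nhds 1) ∧
    (∀ n, Even n → ∀ m ∈ F n, Even m) ∧
    (∀ n, 4 ≤ n → Even n →
      2 * largestMissing n < n.choose 3 ∧ n.choose 3 ≤ 2 * largestMissing n + 4) := by
  refine ⟨fun n h1 h2 => even_bound h1 h2, fun n h1 h2 => odd_bound h1 h2, ?_, ?_,
    fun n h m hm => even_F h hm, fun n h1 h2 => literal_even h1 h2⟩
  · apply lim_of
    · exact Real.one_le_sqrt.2 (by norm_num)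
    · intro n h1 h2
      exact even_bound h1 h2
  · apply lim_of
    · exact Real.one_le_rpow (by norm_num) (by norm_num)
    · intro n h1 h2
      exact odd_bound h1 h2

end Pool.Agent.Results.MP_31abb5_co.SecondOrder
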